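import Mathlib

/-!
# MP_2e14e4_lc: simplicity of non-unital Banach algebras is not `G_δ`

`P = ℓ₁(S)`, with `S` the free semigroup on countably many generators, is a separable quotient
generator for Banach algebras and the set `Simple(P)` of the closed ideals `K` with simple quotient
`P / K` is not `G_δ` in `Ideal(P)` with the Wijsman topology.

For `x ∈ 2^ω` let `T_x` be the infinite matrix with `1/2` on the diagonal and `-1` at the places
`(k, n)` where `k < n` are consecutive elements of `{i : x i = 1}`.  The space `ℓ₁(ℕ × ℕ)` with the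
product `a ∗ b = a T_x b` is a Banach algebra, a quotient of `P` by an ideal `K_x` which depends
continuously on `x`, and it is simple if and only if `x` has only finitely many ones.
-/

set_option autoImplicit false

open Set Filter Topology
open scoped ENNReal

namespace Pool.Agent.Results.MP_2e14e4_lc.SimpleNotGdelta

/-! ### Banach algebras and their closed ideals -/

section Defs

variable (P : Type) [NonUnitalNormedRing P] [NormedSpace ℂ P]

/-- The closed two-sided ideals of `P` (they are linear subspaces). -/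
structure ClosedIdeal extends Submodule ℂ P where
  isClosed : IsClosed (carrier : Set P)
  mul_left : ∀ p k : P, k ∈ carrier → p * k ∈ carrier
  mul_right : ∀ p k : P, k ∈ carrier → k * p ∈ carrier

/-- The Wijsman topology: the weakest topology on the set of closed ideals for which
`K ↦ d(p, K)` is continuous for every `p`. -/
noncomputable instance : TopologicalSpace (ClosedIdeal P) :=
  TopologicalSpace.induced (fun (K : ClosedIdeal P) (p : P) => Metric.infDist p (K.carrier : Set P))
    Pi.topologicalSpace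

variable {P}

/-- The smallest two-sided ideal which contains `b`. -/
def idealGen (b : P) : Submodule ℂ P :=
  sInf {I | b ∈ I ∧ ∀ a z : P, z ∈ I → a * z ∈ I ∧ z * a ∈ I}

/-- The quotient `P / K` is simple: for `b ∉ K` the ideal generated by the image of `b` (it is the
image of the ideal generated by `b`) is dense in `P / K`. -/
def QuotientIsSimple (K : ClosedIdeal P) : Prop :=
  ∀ b : P, b ∉ K.toSubmodule → Dense ((idealGen b ⊔ K.toSubmodule : Submodule ℂ P) : Set P)

variable (P)

/-- `Simple(P)`. -/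
def SimpleSet : Set (ClosedIdeal P) := {K | QuotientIsSimple K}

/-- `P` is a separable quotient generator: `P` is separable and every separable (complex, not
necessarily unital) Banach algebra `B` is isomorphic to `P / K` for some closed ideal `K`, through
the isomorphism induced by a continuous surjective homomorphism `P → B` with kernel `K`. -/
def IsQuotientGenerator : Prop :=
  TopologicalSpace.SeparableSpace P ∧
  ∀ (B : Type) [NonUnitalNormedRing B] [NormedSpace ℂ B] [IsScalarTower ℂ B B]
    [SMulCommClass ℂ B B] [CompleteSpace B] [TopologicalSpace.SeparableSpace B],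
    ∃ (K : ClosedIdeal P) (π : P →L[ℂ] B), (∀ p q, π (p * q) = π p * π q) ∧
      Function.Surjective π ∧ ∀ p, p ∈ K.toSubmodule ↔ π p = 0

/-- The free semigroup on countably many generators. -/
abbrev S : Type := FreeSemigroup ℕ

/-- `P` is `ℓ₁(S)` with the convolution product and the unit vectors `word w`, `w ∈ S`: the elements
of `P` are the sums `∑ c w • word w` with `∑ |c w| < ∞`, of norm `∑ |c w|`, and
`word u * word v = word (u * v)`. -/
structure IsEllOne (word : S → P) : Prop where
  mul : ∀ u v, word u * word v = word (u * v)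
  norm : ∀ c : S → ℂ, (Summable fun w => ‖c w‖) → ‖∑' w, c w • word w‖ = ∑' w, ‖c w‖
  exists_sum : ∀ p : P, ∃ c : S → ℂ, (Summable fun w => ‖c w‖) ∧ HasSum (fun w => c w • word w) p

end Defs

/-! ### Linear maps on `ℓ₁(I)` -/

section Lone

/-- `ℓ₁(I)`. -/
abbrev L1 (I : Type) : Type := lp (fun _ : I => ℂ) 1

variable {I : Type}

open Classical in
/-- The unit vectors of `ℓ₁(I)`. -/
noncomputable def δ (i : I) : L1 I := lp.single 1 i (1 : ℂ)

theorem norm_δ (i : I) : ‖δ i‖ = 1 := by
  classical
  unfold δ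
  rw [lp.norm_single (by norm_num)]
  simp

theorem δ_self (i : I) : δ i i = 1 := by
  classical
  unfold δ
  simp

theorem δ_ne {i j : I} (h : j ≠ i) : δ i j = 0 := by
  classical
  unfold δ
  exact lp.single_apply_ne 1 i _ h

theorem summable_norm (f : L1 I) : Summable fun i => ‖f i‖ := by
  have := (lp.memℓp f).summable (by norm_num)
  simpa using this

theorem norm_eq (f : L1 I) : ‖f‖ = ∑' i, ‖f i‖ := by
  have := lp.norm_eq_tsum_rpow (p := 1) (by norm_num) f
  simpa using this

theorem hasSum_δ (f : L1 I) : HasSum (fun i => f i • δ i) f := by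
  classical
  have := lp.hasSum_single (p := 1) (by norm_num) f
  convert this using 2 with i
  unfold δ
  rw [← lp.single_smul]
  simp

variable {E : Type} [NormedAddCommGroup E] [NormedSpace ℂ E]

theorem summable_smul [CompleteSpace E] (φ : I → E) (h : ∀ i, ‖φ i‖ ≤ 1) (f : L1 I) :
    Summable fun i => f i • φ i := by
  refine Summable.of_norm_bounded (summable_norm f) fun i => ?_
  rw [norm_smul]
  exact mul_le_of_le_one_right (norm_nonneg _) (h i)

/-- The continuous linear extension of a map bounded by `1` on the unit vectors. -/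
noncomputable def lift [CompleteSpace E] (φ : I → E) (h : ∀ i, ‖φ i‖ ≤ 1) : L1 I →L[ℂ] E :=
  LinearMap.mkContinuous
    { toFun := fun f => ∑' i, f i • φ i
      map_add' := fun f g => by
        rw [← (summable_smul φ h f).tsum_add (summable_smul φ h g)]
        refine tsum_congr fun i => ?_
        rw [lp.coeFn_add, Pi.add_apply, add_smul]
      map_smul' := fun c f => by
        simp only [RingHom.id_apply]
        rw [← (summable_smul φ h f).tsum_const_smul c]
        refine tsum_congr fun i => ?_
        rw [lp.coeFn_smul, Pi.smul_apply, smul_assoc] }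
    1 (fun f => by
      rw [one_mul, norm_eq]
      refine (norm_tsum_le_tsum_norm ?_).trans ?_
      · refine Summable.of_nonneg_of_le (fun _ => norm_nonneg _) (fun i => ?_) (summable_norm f)
        rw [norm_smul]
        exact mul_le_of_le_one_right (norm_nonneg _) (h i)
      · refine Summable.tsum_le_tsum (fun i => ?_) ?_ (summable_norm f)
        · rw [norm_smul]
          exact mul_le_of_le_one_right (norm_nonneg _) (h i)
        · refine Summable.of_nonneg_of_le (fun _ => norm_nonneg _) (fun i => ?_) (summable_norm f)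
          rw [norm_smul]
          exact mul_le_of_le_one_right (norm_nonneg _) (h i))

theorem lift_apply [CompleteSpace E] (φ : I → E) (h : ∀ i, ‖φ i‖ ≤ 1) (f : L1 I) :
    lift φ h f = ∑' i, f i • φ i := rfl

theorem lift_δ [CompleteSpace E] (φ : I → E) (h : ∀ i, ‖φ i‖ ≤ 1) (i : I) :
    lift φ h (δ i) = φ i := by
  rw [lift_apply, tsum_eq_single i]
  · rw [δ_self, one_smul]
  · intro j hj
    rw [δ_ne hj, zero_smul]

theorem norm_lift_le [CompleteSpace E] (φ : I → E) (h : ∀ i, ‖φ i‖ ≤ 1) : ‖lift φ h‖ ≤ 1 :=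
  LinearMap.mkContinuous_norm_le _ zero_le_one _

theorem clm_ext {F G : L1 I →L[ℂ] E} (h : ∀ i, F (δ i) = G (δ i)) : F = G := by
  ext f
  have h1 := (hasSum_δ f).mapL F
  have h2 := (hasSum_δ f).mapL G
  simp only [map_smul, h] at h1 h2
  exact h1.unique h2

end Lone

/-! ### The Banach algebra `ℓ₁(S)` -/

instance : Countable S := by
  have : Function.Injective (fun w : S => (w.head, w.tail)) := by
    intro u v h
    cases u; cases v
    simp only [Prod.mk.injEq] at h
    rw [h.1, h.2]
  exact this.countable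

/-- The convolution product of `ℓ₁(S)`: the continuous bilinear map with `δ u * δ v = δ (u * v)`. -/
noncomputable def conv : L1 S →L[ℂ] L1 S →L[ℂ] L1 S :=
  lift (fun u => lift (fun v => δ (u * v)) fun _ => (norm_δ _).le) fun _ => norm_lift_le _ _

theorem conv_δ (u v : S) : conv (δ u) (δ v) = δ (u * v) := by
  unfold conv
  rw [lift_δ, lift_δ]

theorem norm_conv_le (f g : L1 S) : ‖conv f g‖ ≤ ‖f‖ * ‖g‖ := by
  refine (ContinuousLinearMap.le_opNorm _ _).trans ?_
  refine mul_le_mul_of_nonneg_right ?_ (norm_nonneg _)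
  refine (ContinuousLinearMap.le_opNorm _ _).trans ?_
  refine (mul_le_mul_of_nonneg_right (norm_lift_le _ _) (norm_nonneg _)).trans ?_
  rw [one_mul]

/-- Trilinear maps which agree on the unit vectors are equal: associativity. -/
theorem assoc_of_δ {I : Type} (μ : L1 I →L[ℂ] L1 I →L[ℂ] L1 I)
    (h : ∀ i j k, μ (μ (δ i) (δ j)) (δ k) = μ (δ i) (μ (δ j) (δ k))) (f g k : L1 I) :
    μ (μ f g) k = μ f (μ g k) := by
  have h3 : ∀ i j, ∀ k, μ (μ (δ i) (δ j)) k = μ (δ i) (μ (δ j) k) := fun i j k =>
    congrArg (fun F => F k) (clm_ext (F := μ (μ (δ i) (δ j))) (G := (μ (δ i)).comp (μ (δ j)))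
      (h i j))
  have h2 : ∀ i, ∀ g k, μ (μ (δ i) g) k = μ (δ i) (μ g k) := fun i g k =>
    congrArg (fun F => F g) (clm_ext (F := (μ.flip k).comp (μ (δ i)))
      (G := (μ (δ i)).comp (μ.flip k)) fun j => h3 i j k)
  exact congrArg (fun F => F f) (clm_ext (F := (μ.flip k).comp (μ.flip g))
      (G := μ.flip (μ g k)) fun i => h2 i g k)

theorem conv_assoc (f g k : L1 S) : conv (conv f g) k = conv f (conv g k) :=
  assoc_of_δ conv (fun u v w => by rw [conv_δ, conv_δ, conv_δ, conv_δ, mul_assoc]) f g k

/-- `P = ℓ₁(S)`. -/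
def P : Type := L1 S

noncomputable instance : NormedAddCommGroup P := inferInstanceAs (NormedAddCommGroup (L1 S))

noncomputable instance : NormedSpace ℂ P := inferInstanceAs (NormedSpace ℂ (L1 S))

instance : CompleteSpace P := inferInstanceAs (CompleteSpace (L1 S))

/-- The unit vector of `ℓ₁(S)` at the word `w`. -/
noncomputable def word (w : S) : P := (δ w : L1 S)

noncomputable instance : NonUnitalNormedRing P :=
  { (inferInstance : NormedAddCommGroup P) with
    mul := fun f g => conv f g
    left_distrib := fun f g h => (conv f).map_add g h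
    right_distrib := fun f g h => congrArg (fun T : L1 S →L[ℂ] L1 S => T h) (conv.map_add f g)
    zero_mul := fun f => congrArg (fun T : L1 S →L[ℂ] L1 S => T f) conv.map_zero
    mul_zero := fun f => (conv f).map_zero
    mul_assoc := conv_assoc
    norm_mul_le := norm_conv_le }

theorem mul_def (f g : P) : f * g = conv f g := rfl

instance : IsScalarTower ℂ P P :=
  ⟨fun c f g => congrArg (fun T : L1 S →L[ℂ] L1 S => T g) (conv.map_smul c f)⟩

instance : SMulCommClass ℂ P P := ⟨fun c f g => ((conv f).map_smul c g).symm⟩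

theorem word_mul (u v : S) : word u * word v = word (u * v) := conv_δ u v

/-! ### Homomorphisms from `ℓ₁(S)` -/

section Hom

variable {A : Type} [NormedAddCommGroup A] [NormedSpace ℂ A]

theorem lift_mul [CompleteSpace A] (μ : A →L[ℂ] A →L[ℂ] A) (ψ : S → A) (h : ∀ w, ‖ψ w‖ ≤ 1)
    (hψ : ∀ u v, ψ (u * v) = μ (ψ u) (ψ v)) (f g : L1 S) :
    lift ψ h (conv f g) = μ (lift ψ h f) (lift ψ h g) := by
  have h2 : ∀ u, ∀ g, lift ψ h (conv (δ u) g) = μ (lift ψ h (δ u)) (lift ψ h g) := fun u g =>
    congrArg (fun F => F g) (clm_ext (F := (lift ψ h).comp (conv (δ u)))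
      (G := (μ (lift ψ h (δ u))).comp (lift ψ h)) fun v => by
        show lift ψ h (conv (δ u) (δ v)) = μ (lift ψ h (δ u)) (lift ψ h (δ v))
        rw [conv_δ, lift_δ, lift_δ, lift_δ, hψ])
  exact congrArg (fun F => F f) (clm_ext (F := (lift ψ h).comp (conv.flip g))
    (G := (μ.flip (lift ψ h g)).comp (lift ψ h)) fun u => h2 u g)

/-- The kernel of a continuous homomorphism is a closed ideal. -/
noncomputable def kerIdeal (μ : A →L[ℂ] A →L[ℂ] A) (π : P →L[ℂ] A) (hπ : ∀ p q, π (p * q) = μ (π p) (π q)) :
    ClosedIdeal P where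
  toSubmodule := LinearMap.ker (π : P →ₗ[ℂ] A)
  isClosed := isClosed_singleton.preimage π.continuous
  mul_left := fun p k hk => by
    have hk' : π k = 0 := hk
    show π (p * k) = 0
    rw [hπ, hk', map_zero]
  mul_right := fun p k hk => by
    have hk' : π k = 0 := hk
    show π (k * p) = 0
    rw [hπ, hk', map_zero]
    rfl

theorem mem_kerIdeal (μ : A →L[ℂ] A →L[ℂ] A) (π : P →L[ℂ] A)
    (hπ : ∀ p q, π (p * q) = μ (π p) (π q)) (p : P) :
    p ∈ (kerIdeal μ π hπ).toSubmodule ↔ π p = 0 := Iff.rfl

end Hom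

/-! ### `ℓ₁(S)` is a quotient generator -/

theorem separable_L1 {I : Type} [Countable I] : TopologicalSpace.SeparableSpace (L1 I) := by
  rw [← TopologicalSpace.isSeparable_univ_iff]
  have h1 : TopologicalSpace.IsSeparable (Submodule.span ℂ (range (δ (I := I))) : Set (L1 I)) :=
    (countable_range δ).isSeparable.span
  have h2 : (univ : Set (L1 I)) ⊆ closure (Submodule.span ℂ (range (δ (I := I))) : Set (L1 I)) := by
    intro f _
    refine mem_closure_of_tendsto (hasSum_δ f) (Eventually.of_forall fun t => ?_)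
    refine Submodule.sum_mem (Submodule.span ℂ (range δ)) fun w _ => ?_
    exact Submodule.smul_mem _ _ (Submodule.subset_span ⟨w, rfl⟩)
  exact h1.closure.mono h2

theorem separable_P : TopologicalSpace.SeparableSpace P := separable_L1 (I := S)

section Gen

variable (B : Type) [NonUnitalNormedRing B] [NormedSpace ℂ B] [IsScalarTower ℂ B B]
    [SMulCommClass ℂ B B] [CompleteSpace B] [TopologicalSpace.SeparableSpace B]

omit [NormedSpace ℂ B] [IsScalarTower ℂ B B] [SMulCommClass ℂ B B] [CompleteSpace B] in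
theorem exists_dense_ball : ∃ g : ℕ → B, (∀ n, ‖g n‖ ≤ 1) ∧
    ∀ b : B, ‖b‖ ≤ 1 → ∀ ε > 0, ∃ n, ‖b - g n‖ < ε := by
  have : SecondCountableTopology B := UniformSpace.secondCountable_of_separable B
  have : Nonempty (Metric.closedBall (0 : B) 1) := ⟨⟨0, by simp⟩⟩
  obtain ⟨u, hu⟩ := TopologicalSpace.exists_dense_seq (Metric.closedBall (0 : B) 1)
  refine ⟨fun n => u n, fun n => mem_closedBall_zero_iff.1 (u n).2, fun b hb ε hε => ?_⟩
  obtain ⟨n, hn⟩ := hu.exists_dist_lt ⟨b, by simpa using hb⟩ hε
  refine ⟨n, ?_⟩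
  rw [← dist_eq_norm]
  exact hn

omit [IsScalarTower ℂ B B] [SMulCommClass ℂ B B] [TopologicalSpace.SeparableSpace B] in
theorem surj_aux (g : ℕ → B)
    (hd : ∀ b : B, ‖b‖ ≤ 1 → ∀ ε > 0, ∃ n, ‖b - g n‖ < ε) (ψ : S → B) (hψ : ∀ w, ‖ψ w‖ ≤ 1)
    (hψg : ∀ n, ψ (FreeSemigroup.of n) = g n) : Function.Surjective (lift ψ hψ) := by
  have step : ∀ r : B, ∃ n, ‖r - ((‖r‖ : ℝ) : ℂ) • g n‖ ≤ ‖r‖ / 2 := by
    intro r
    by_cases hr : r = 0
    · exact ⟨0, by simp [hr]⟩
    · have hr' : 0 < ‖r‖ := norm_pos_iff.2 hr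
      have hr'' : ((‖r‖ : ℝ) : ℂ) ≠ 0 := by
        exact_mod_cast hr'.ne'
      obtain ⟨n, hn⟩ := hd ((((‖r‖ : ℝ) : ℂ))⁻¹ • r) (by
        rw [norm_smul, norm_inv, Complex.norm_real, norm_norm, inv_mul_cancel₀ hr'.ne']) (1 / 2)
        (by norm_num)
      refine ⟨n, ?_⟩
      have : r - ((‖r‖ : ℝ) : ℂ) • g n =
          ((‖r‖ : ℝ) : ℂ) • ((((‖r‖ : ℝ) : ℂ))⁻¹ • r - g n) := by
        rw [smul_sub, smul_smul, mul_inv_cancel₀ hr'', one_smul]
      rw [this, norm_smul, Complex.norm_real, norm_norm]
      nlinarith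
  choose c hc using step
  intro b
  let r : ℕ → B := fun k => Nat.rec b (fun _ r => r - ((‖r‖ : ℝ) : ℂ) • g (c r)) k
  have hr0 : r 0 = b := rfl
  have hrs : ∀ k, r (k + 1) = r k - ((‖r k‖ : ℝ) : ℂ) • g (c (r k)) := fun k => rfl
  have hrn : ∀ k, ‖r k‖ ≤ ‖b‖ * (1 / 2) ^ k := by
    intro k
    induction k with
    | zero => simp [hr0]
    | succ k ih =>
      rw [hrs]
      refine (hc (r k)).trans ?_
      rw [pow_succ]
      linarith
  have hgeo : Summable fun k : ℕ => ‖b‖ * (1 / 2 : ℝ) ^ k :=
    (summable_geometric_of_lt_one (by norm_num) (by norm_num)).mul_left _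
  have hsum : Summable fun k => ((‖r k‖ : ℝ) : ℂ) • (δ (FreeSemigroup.of (c (r k))) : L1 S) := by
    refine Summable.of_norm_bounded hgeo fun k => ?_
    rw [norm_smul, norm_δ, mul_one, Complex.norm_real, norm_norm]
    exact hrn k
  refine ⟨∑' k, ((‖r k‖ : ℝ) : ℂ) • (δ (FreeSemigroup.of (c (r k))) : L1 S), ?_⟩
  have h1 := hsum.hasSum.mapL (lift ψ hψ)
  simp only [map_smul, lift_δ, hψg] at h1
  have hr_tend : Tendsto r atTop (𝓝 0) := by
    refine squeeze_zero_norm hrn ?_
    have := (tendsto_pow_atTop_nhds_zero_of_lt_one (r := (1 / 2 : ℝ)) (by norm_num)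
      (by norm_num)).const_mul ‖b‖
    simpa using this
  have h2 : Tendsto (fun n => ∑ k ∈ Finset.range n, ((‖r k‖ : ℝ) : ℂ) • g (c (r k))) atTop
      (𝓝 b) := by
    have h3 : ∀ n, ∑ k ∈ Finset.range n, ((‖r k‖ : ℝ) : ℂ) • g (c (r k)) = b - r n := by
      intro n
      induction n with
      | zero => simp [hr0]
      | succ n ih =>
        rw [Finset.sum_range_succ, ih, hrs]
        abel
    simp only [h3]
    have := (tendsto_const_nhds (x := b)).sub hr_tend
    simpa using this
  exact tendsto_nhds_unique h1.tendsto_sum_nat h2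

end Gen

theorem isQuotientGenerator_P : IsQuotientGenerator P := by
  refine ⟨separable_P, ?_⟩
  intro B _ _ _ _ _ _
  obtain ⟨g, hg, hd⟩ := exists_dense_ball B
  let ψ : S → B := fun w => FreeSemigroup.lift g w
  have hψ : ∀ w, ‖ψ w‖ ≤ 1 := by
    intro w
    refine FreeSemigroup.recOnMul w (fun n => ?_) fun n v _ hv => ?_
    · show ‖FreeSemigroup.lift g (FreeSemigroup.of n)‖ ≤ 1
      rw [FreeSemigroup.lift_of]
      exact hg n
    · show ‖FreeSemigroup.lift g (FreeSemigroup.of n * v)‖ ≤ 1
      rw [FreeSemigroup.lift_of_mul]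
      exact (norm_mul_le _ _).trans (mul_le_one₀ (hg n) (norm_nonneg _) hv)
  let π : P →L[ℂ] B := lift ψ hψ
  have hπ : ∀ p q, π (p * q) = ContinuousLinearMap.mul ℂ B (π p) (π q) :=
    lift_mul (ContinuousLinearMap.mul ℂ B) ψ hψ (fun u v => map_mul (FreeSemigroup.lift g) u v)
  refine ⟨kerIdeal (ContinuousLinearMap.mul ℂ B) π hπ, π, hπ, ?_, fun p => Iff.rfl⟩
  exact surj_aux B g hd ψ hψ fun n => FreeSemigroup.lift_of g n

/-! ### The matrix algebras `ℓ₁(ℕ × ℕ)` with the product `a T_x b` -/

/-- `k < n` are consecutive elements of `{i : x i = 1}`. -/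
def R (x : ℕ → Bool) (k n : ℕ) : Prop :=
  k < n ∧ x k = true ∧ x n = true ∧ ∀ j, k < j → j < n → x j = false

theorem R_unique_right {x : ℕ → Bool} {k n n' : ℕ} (h : R x k n) (h' : R x k n') : n = n' := by
  rcases lt_trichotomy n n' with h1 | h1 | h1
  · have := h'.2.2.2 n h.1 h1
    rw [h.2.2.1] at this
    exact absurd this (by simp)
  · exact h1
  · have := h.2.2.2 n' h'.1 h1
    rw [h'.2.2.1] at this
    exact absurd this (by simp)

theorem R_unique_left {x : ℕ → Bool} {k k' n : ℕ} (h : R x k n) (h' : R x k' n) : k = k' := by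
  rcases lt_trichotomy k k' with h1 | h1 | h1
  · have := h.2.2.2 k' h1 h'.1
    rw [h'.2.1] at this
    exact absurd this (by simp)
  · exact h1
  · have := h'.2.2.2 k h1 h.1
    rw [h.2.1] at this
    exact absurd this (by simp)

open Classical in
/-- The entries of the matrix `T_x`. -/
noncomputable def t (x : ℕ → Bool) (k n : ℕ) : ℂ :=
  if k = n then 1 / 2 else if R x k n then -1 else 0

theorem norm_t_le (x : ℕ → Bool) (k n : ℕ) : ‖t x k n‖ ≤ 1 := by
  unfold t
  split_ifs <;> norm_num

theorem isClopen_R (k n : ℕ) : IsClopen {x : ℕ → Bool | R x k n} := by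
  have hc : ∀ (i : ℕ) (v : Bool), IsClopen {x : ℕ → Bool | x i = v} := fun i v =>
    (isClopen_discrete {v}).preimage (continuous_apply i)
  by_cases hkn : k < n
  · have : {x : ℕ → Bool | R x k n} = {x | x k = true} ∩ {x | x n = true} ∩
        ⋂ j ∈ Finset.Ioo k n, {x | x j = false} := by
      ext x
      simp only [R, mem_inter_iff, mem_iInter, Finset.mem_Ioo]
      constructor
      · rintro ⟨_, h2, h3, h4⟩
        exact ⟨⟨h2, h3⟩, fun j hj => h4 j hj.1 hj.2⟩
      · rintro ⟨⟨h2, h3⟩, h4⟩
        exact ⟨hkn, h2, h3, fun j h5 h6 => h4 j ⟨h5, h6⟩⟩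
    rw [this]
    exact ((hc k true).inter (hc n true)).inter
      (Set.Finite.isClopen_biInter (Finset.finite_toSet _) fun j _ => hc j false)
  · have : {x : ℕ → Bool | R x k n} = ∅ := by
      ext x
      simp only [mem_empty_iff_false, iff_false]
      exact fun h => hkn h.1
    rw [this]
    exact isClopen_empty

theorem continuous_t (k n : ℕ) : Continuous fun x : ℕ → Bool => t x k n := by
  classical
  unfold t
  by_cases h : k = n
  · simp only [h, if_true]
    exact continuous_const
  · simp only [h, if_false]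
    refine continuous_if ?_ continuousOn_const continuousOn_const
    intro a ha
    have : frontier {x : ℕ → Bool | R x k n} = ∅ := (isClopen_R k n).frontier_eq
    rw [this] at ha
    exact absurd ha (Set.notMem_empty _)

/-- The index set `ℕ × ℕ` of the matrices. -/
abbrev II : Type := ℕ × ℕ

theorem norm_smul_δ_le (c : ℂ) (hc : ‖c‖ ≤ 1) (i : II) : ‖c • (δ i : L1 II)‖ ≤ 1 := by
  rw [norm_smul, norm_δ, mul_one]
  exact hc

/-- The product `a T_x b` of `ℓ₁(ℕ × ℕ)`. -/
noncomputable def mu (x : ℕ → Bool) : L1 II →L[ℂ] L1 II →L[ℂ] L1 II :=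
  lift (fun i => lift (fun j => t x i.2 j.1 • δ (i.1, j.2))
    fun j => norm_smul_δ_le _ (norm_t_le x i.2 j.1) _) fun _ => norm_lift_le _ _

theorem mu_δ (x : ℕ → Bool) (i j : II) :
    mu x (δ i) (δ j) = t x i.2 j.1 • δ (i.1, j.2) := by
  unfold mu
  rw [lift_δ, lift_δ]

theorem norm_mu_le (x : ℕ → Bool) (f g : L1 II) : ‖mu x f g‖ ≤ ‖f‖ * ‖g‖ := by
  refine (ContinuousLinearMap.le_opNorm _ _).trans ?_
  refine mul_le_mul_of_nonneg_right ?_ (norm_nonneg _)
  refine (ContinuousLinearMap.le_opNorm _ _).trans ?_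
  refine (mul_le_mul_of_nonneg_right (norm_lift_le _ _) (norm_nonneg _)).trans ?_
  rw [one_mul]

theorem mu_assoc (x : ℕ → Bool) (f g k : L1 II) :
    mu x (mu x f g) k = mu x f (mu x g k) := by
  refine assoc_of_δ (mu x) (fun i j k => ?_) f g k
  rw [mu_δ, mu_δ, map_smul, map_smul, mu_δ, smul_apply, mu_δ, smul_smul,
    smul_smul, mul_comm]

/-- `ℓ₁(ℕ × ℕ)` as a semigroup with the product `a T_x b`. -/
def Tw (_ : ℕ → Bool) : Type := L1 II

noncomputable instance (x : ℕ → Bool) : Semigroup (Tw x) where
  mul := fun a b => mu x a b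
  mul_assoc := mu_assoc x

/-- The generators. -/
noncomputable def gen (x : ℕ → Bool) (n : ℕ) : Tw x := (δ (Nat.unpair n) : L1 II)

/-- The images of the words. -/
noncomputable def psi (x : ℕ → Bool) (w : S) : L1 II := FreeSemigroup.lift (gen x) w

theorem psi_of (x : ℕ → Bool) (n : ℕ) : psi x (FreeSemigroup.of n) = δ (Nat.unpair n) := rfl

theorem psi_mul (x : ℕ → Bool) (u v : S) : psi x (u * v) = mu x (psi x u) (psi x v) :=
  map_mul (FreeSemigroup.lift (gen x)) u v

theorem norm_psi_le (x : ℕ → Bool) (w : S) : ‖psi x w‖ ≤ 1 := by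
  refine FreeSemigroup.recOnMul w (fun n => ?_) fun n v _ hv => ?_
  · rw [psi_of, norm_δ]
  · rw [psi_mul, psi_of]
    refine (norm_mu_le _ _ _).trans ?_
    rw [norm_δ, one_mul]
    exact hv

/-- The quotient map of `ℓ₁(S)` onto `ℓ₁(ℕ × ℕ)` with the product `a T_x b`. -/
noncomputable def Phi (x : ℕ → Bool) : P →L[ℂ] L1 II := lift (psi x) (norm_psi_le x)

theorem Phi_mul (x : ℕ → Bool) (p q : P) : Phi x (p * q) = mu x (Phi x p) (Phi x q) :=
  lift_mul (mu x) (psi x) (norm_psi_le x) (psi_mul x) p q

/-- A linear section of the quotient map. -/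
noncomputable def sec : L1 II →L[ℂ] P :=
  lift (I := II) (E := L1 S) (fun i => δ (FreeSemigroup.of (Nat.pair i.1 i.2)))
    fun _ => (norm_δ _).le

theorem norm_sec_le (a : L1 II) : ‖sec a‖ ≤ ‖a‖ := by
  refine (ContinuousLinearMap.le_opNorm _ _).trans ?_
  refine (mul_le_mul_of_nonneg_right (norm_lift_le _ _) (norm_nonneg _)).trans ?_
  rw [one_mul]

theorem Phi_sec (x : ℕ → Bool) (a : L1 II) : Phi x (sec a) = a := by
  refine congrArg (fun F => F a) (clm_ext (F := (Phi x).comp sec)
    (G := ContinuousLinearMap.id ℂ (L1 II)) fun i => ?_)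
  show Phi x (sec (δ i)) = δ i
  have h1 : sec (δ i) = (δ (FreeSemigroup.of (Nat.pair i.1 i.2)) : L1 S) :=
    lift_δ (I := II) (E := L1 S) _ _ i
  rw [h1]
  have h2 : Phi x (δ (FreeSemigroup.of (Nat.pair i.1 i.2)) : L1 S) =
      psi x (FreeSemigroup.of (Nat.pair i.1 i.2)) := lift_δ _ _ _
  rw [h2, psi_of, Nat.unpair_pair]

theorem norm_Phi_le (x : ℕ → Bool) (p : P) : ‖Phi x p‖ ≤ ‖p‖ := by
  refine (ContinuousLinearMap.le_opNorm _ _).trans ?_
  refine (mul_le_mul_of_nonneg_right (norm_lift_le _ _) (norm_nonneg _)).trans ?_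
  rw [one_mul]

/-- The ideals `K_x`. -/
noncomputable def K (x : ℕ → Bool) : ClosedIdeal P := kerIdeal (mu x) (Phi x) (Phi_mul x)

theorem mem_K (x : ℕ → Bool) (p : P) : p ∈ (K x).toSubmodule ↔ Phi x p = 0 := Iff.rfl

theorem infDist_K (x : ℕ → Bool) (p : P) :
    Metric.infDist p ((K x).carrier : Set P) = ‖Phi x p‖ := by
  have hne : ((K x).carrier : Set P).Nonempty := ⟨0, (K x).toSubmodule.zero_mem⟩
  apply le_antisymm
  · have hk : p - sec (Phi x p) ∈ ((K x).carrier : Set P) := by
      show Phi x (p - sec (Phi x p)) = 0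
      rw [map_sub, Phi_sec, sub_self]
    refine (Metric.infDist_le_dist_of_mem hk).trans ?_
    rw [dist_eq_norm, sub_sub_cancel]
    exact norm_sec_le _
  · refine (Metric.le_infDist hne).2 fun k hk => ?_
    have hk' : Phi x k = 0 := hk
    have : Phi x p = Phi x (p - k) := by rw [map_sub, hk', sub_zero]
    rw [this, dist_eq_norm]
    exact norm_Phi_le x _

/-! ### Continuity in `x` -/

theorem continuous_mu_left (i : II) (a : (ℕ → Bool) → L1 II) (ha : Continuous a) :
    Continuous fun x => mu x (δ i) (a x) := by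
  rw [continuous_iff_continuousAt]
  intro x0
  have h1 : Continuous fun x : ℕ → Bool => mu x (δ i) (a x0) := by
    have : (fun x => mu x (δ i) (a x0)) =
        fun x => ∑' j, (a x0) j • (t x i.2 j.1 • (δ (i.1, j.2) : L1 II)) := by
      funext x
      unfold mu
      rw [lift_δ, lift_apply]
    rw [this]
    refine continuous_tsum (fun j => ?_) (summable_norm (a x0)) fun j x => ?_
    · have h : Continuous fun x : ℕ → Bool => t x i.2 j.1 • (δ (i.1, j.2) : L1 II) :=
        (continuous_t i.2 j.1).smul continuous_const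
      have h' := h.const_smul ((a x0) j : ℂ)
      exact h'
    · rw [norm_smul]
      exact mul_le_of_le_one_right (norm_nonneg _) (norm_smul_δ_le _ (norm_t_le _ _ _) _)
  have h2 : Tendsto (fun x => mu x (δ i) (a x - a x0)) (𝓝 x0) (𝓝 0) := by
    refine squeeze_zero_norm (a := fun x => ‖a x - a x0‖) (fun x => ?_) ?_
    · refine (norm_mu_le _ _ _).trans ?_
      rw [norm_δ, one_mul]
    · have : Tendsto (fun x => ‖a x - a x0‖) (𝓝 x0) (𝓝 ‖a x0 - a x0‖) :=
        ((ha.sub continuous_const).norm).tendsto x0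
      simpa using this
  have h3 := (h1.tendsto x0).add h2
  rw [add_zero] at h3
  refine h3.congr fun x => ?_
  rw [map_sub]
  abel

theorem continuous_psi (w : S) : Continuous fun x => psi x w := by
  refine FreeSemigroup.recOnMul w (fun n => ?_) fun n v _ hv => ?_
  · exact continuous_const
  · have : (fun x => psi x (FreeSemigroup.of n * v)) =
        fun x => mu x (δ (Nat.unpair n)) (psi x v) := by
      funext x
      rw [psi_mul, psi_of]
    rw [this]
    exact continuous_mu_left _ _ hv

theorem continuous_Phi_aux (p : L1 S) :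
    Continuous fun x : ℕ → Bool => lift (psi x) (norm_psi_le x) p := by
  have : (fun x : ℕ → Bool => lift (psi x) (norm_psi_le x) p) =
      fun x => ∑' w, p w • psi x w := rfl
  rw [this]
  refine continuous_tsum (fun w => ?_) (summable_norm p) fun w x => ?_
  · have h' := (continuous_psi w).const_smul (p w : ℂ)
    exact h'
  · rw [norm_smul]
    exact mul_le_of_le_one_right (norm_nonneg _) (norm_psi_le x w)

theorem continuous_Phi (p : P) : Continuous fun x => Phi x p := continuous_Phi_aux p

theorem continuous_K : Continuous K := by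
  refine continuous_induced_rng.2 (continuous_pi fun p => ?_)
  have : (fun x => ‖Phi x p‖) =
      fun x => ((fun (K : ClosedIdeal P) (p : P) => Metric.infDist p (K.carrier : Set P)) ∘ K) x p := by
    funext x
    exact (infDist_K x p).symm
  rw [← this]
  exact (continuous_Phi p).norm

/-! ### The coordinates of `T_x a` -/

/-- The coordinate functionals. -/
noncomputable def ev (i : II) : L1 II →L[ℂ] ℂ := lp.evalCLM ℂ (fun _ : II => ℂ) 1 i

theorem ev_apply (i : II) (a : L1 II) : ev i a = a i := rfl

open Classical in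
theorem ev_δ (i j : II) : ev i (δ j) = if j = i then 1 else 0 := by
  rw [ev_apply]
  split_ifs with h
  · rw [h, δ_self]
  · exact δ_ne fun h' => h h'.symm

open Classical in
/-- The functional `a ↦ (T_x a) (k, l)`. -/
noncomputable def row (x : ℕ → Bool) (k l : ℕ) : L1 II →L[ℂ] ℂ :=
  lift (fun i => if i.2 = l then t x k i.1 else 0) fun i => by
    split_ifs
    · exact norm_t_le _ _ _
    · simp

/-- The functional `a ↦ (T_x a T_x) (k, n)`. -/
noncomputable def dbl (x : ℕ → Bool) (k n : ℕ) : L1 II →L[ℂ] ℂ :=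
  lift (fun i => t x k i.1 * t x i.2 n) fun i => by
    rw [norm_mul]
    exact mul_le_one₀ (norm_t_le _ _ _) (norm_nonneg _) (norm_t_le _ _ _)

open Classical in
theorem row_δ (x : ℕ → Bool) (k l : ℕ) (i : II) :
    row x k l (δ i) = if i.2 = l then t x k i.1 else 0 := by
  unfold row
  rw [lift_δ]

theorem dbl_δ (x : ℕ → Bool) (k n : ℕ) (i : II) :
    dbl x k n (δ i) = t x k i.1 * t x i.2 n := by
  unfold dbl
  rw [lift_δ]

theorem t_self (x : ℕ → Bool) (k : ℕ) : t x k k = 1 / 2 := by
  unfold t
  simp

theorem t_R {x : ℕ → Bool} {k n : ℕ} (h : R x k n) : t x k n = -1 := by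
  unfold t
  rw [if_neg h.1.ne, if_pos h]

theorem t_zero {x : ℕ → Bool} {k n : ℕ} (h1 : k ≠ n) (h : ¬ R x k n) : t x k n = 0 := by
  unfold t
  rw [if_neg h1, if_neg h]

theorem row_of_R {x : ℕ → Bool} {k k' : ℕ} (h : R x k k') (l : ℕ) (a : L1 II) :
    row x k l a = 1 / 2 * a (k, l) - a (k', l) := by
  have : row x k l = (1 / 2 : ℂ) • ev (k, l) - ev (k', l) := by
    refine clm_ext fun i => ?_
    obtain ⟨p, q⟩ := i
    rw [sub_apply, smul_apply, row_δ, ev_δ, ev_δ, smul_eq_mul]
    by_cases hq : q = l
    · subst hq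
      simp only [if_true, Prod.mk.injEq, and_true]
      by_cases hp : p = k
      · subst hp
        rw [t_self, if_pos rfl, if_neg h.1.ne]
        ring
      · by_cases hp' : p = k'
        · subst hp'
          rw [t_R h, if_neg hp, if_pos rfl]
          ring
        · rw [t_zero (fun h' => hp h'.symm) (fun h' => hp' (R_unique_right h' h)), if_neg hp,
            if_neg hp']
          ring
    · simp [hq]
  rw [this, sub_apply, smul_apply, ev_apply, ev_apply, smul_eq_mul]

theorem row_of_not {x : ℕ → Bool} {k : ℕ} (h : ∀ k', ¬ R x k k') (l : ℕ) (a : L1 II) :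
    row x k l a = 1 / 2 * a (k, l) := by
  have : row x k l = (1 / 2 : ℂ) • ev (k, l) := by
    refine clm_ext fun i => ?_
    obtain ⟨p, q⟩ := i
    rw [smul_apply, row_δ, ev_δ, smul_eq_mul]
    by_cases hq : q = l
    · subst hq
      simp only [if_true, Prod.mk.injEq, and_true]
      by_cases hp : p = k
      · subst hp
        rw [t_self, if_pos rfl]
        ring
      · rw [t_zero (fun h' => hp h'.symm) (h p), if_neg hp]
        ring
    · simp [hq]
  rw [this, smul_apply, ev_apply, smul_eq_mul]

theorem dbl_of_R {x : ℕ → Bool} {j n : ℕ} (h : R x j n) (k : ℕ) (a : L1 II) :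
    dbl x k n a = 1 / 2 * row x k n a - row x k j a := by
  have : dbl x k n = (1 / 2 : ℂ) • row x k n - row x k j := by
    refine clm_ext fun i => ?_
    obtain ⟨p, q⟩ := i
    rw [sub_apply, smul_apply, row_δ, row_δ, dbl_δ, smul_eq_mul]
    show t x k p * t x q n = 1 / 2 * (if q = n then t x k p else 0) - (if q = j then t x k p else 0)
    by_cases hq : q = n
    · subst hq
      rw [t_self, if_pos rfl, if_neg h.1.ne']
      ring
    · by_cases hq' : q = j
      · subst hq'
        rw [t_R h, if_neg hq, if_pos rfl]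
        ring
      · rw [t_zero hq (fun h' => hq' (R_unique_left h' h)), if_neg hq, if_neg hq']
        ring
  rw [this, sub_apply, smul_apply, smul_eq_mul]

theorem dbl_of_not {x : ℕ → Bool} {n : ℕ} (h : ∀ j, ¬ R x j n) (k : ℕ) (a : L1 II) :
    dbl x k n a = 1 / 2 * row x k n a := by
  have : dbl x k n = (1 / 2 : ℂ) • row x k n := by
    refine clm_ext fun i => ?_
    obtain ⟨p, q⟩ := i
    rw [smul_apply, row_δ, dbl_δ, smul_eq_mul]
    show t x k p * t x q n = 1 / 2 * (if q = n then t x k p else 0)
    by_cases hq : q = n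
    · subst hq
      rw [t_self, if_pos rfl]
      ring
    · rw [t_zero hq (h q), if_neg hq]
      ring
  rw [this, smul_apply, smul_eq_mul]

/-- `(δ (m, k) ∗ a) (m', l) = (T_x a) (k, l)` if `m' = m` and `0` otherwise. -/
theorem ev_mu (x : ℕ → Bool) (m k m' l : ℕ) (a : L1 II) :
    (mu x (δ (m, k)) a) (m', l) = if m' = m then row x k l a else 0 := by
  have : (ev (m', l)).comp (mu x (δ (m, k))) = if m' = m then row x k l else 0 := by
    refine clm_ext fun i => ?_
    obtain ⟨p, q⟩ := i
    show ev (m', l) (mu x (δ (m, k)) (δ (p, q))) = _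
    rw [mu_δ, map_smul, ev_δ, smul_eq_mul]
    show t x k p * (if ((m, q) : II) = (m', l) then 1 else 0) = _
    by_cases hm : m' = m
    · subst hm
      simp only [if_true, Prod.mk.injEq, true_and]
      rw [row_δ]
      by_cases hq : q = l
      · simp [hq]
      · simp [hq]
    · have hne : ((m, q) : II) ≠ (m', l) := fun h => hm (congrArg Prod.fst h).symm
      rw [if_neg hne, if_neg hm, mul_zero]
      rfl
  have h2 := congrArg (fun F => F a) this
  have h3 : (mu x (δ (m, k)) a) (m', l) = ((ev (m', l)).comp (mu x (δ (m, k)))) a := rfl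
  rw [h3]
  simp only [this]
  split_ifs <;> rfl

/-- `δ (m, k) ∗ a ∗ δ (n, l) = (T_x a T_x) (k, n) • δ (m, l)`. -/
theorem mu_mu (x : ℕ → Bool) (m k n l : ℕ) (a : L1 II) :
    mu x (mu x (δ (m, k)) a) (δ (n, l)) = dbl x k n a • δ (m, l) := by
  refine congrArg (fun F => F a) (clm_ext
    (F := ((mu x).flip (δ (n, l))).comp (mu x (δ (m, k))))
    (G := (dbl x k n).smulRight (δ (m, l))) fun i => ?_)
  show mu x (mu x (δ (m, k)) (δ i)) (δ (n, l)) = dbl x k n (δ i) • δ (m, l)
  rw [mu_δ, map_smul, smul_apply, mu_δ, dbl_δ, smul_smul]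

/-! ### Finitely many ones: simple -/

theorem eq_zero_of_dbl {x : ℕ → Bool} {M : ℕ} (hM : ∀ n, M ≤ n → x n = false) {a : L1 II}
    (h : ∀ k n, dbl x k n a = 0) : a = 0 := by
  have hrow : ∀ k n, row x k n a = 0 := by
    intro k n
    induction n using Nat.strong_induction_on with
    | _ n ih =>
      by_cases hR : ∃ j, R x j n
      · obtain ⟨j, hj⟩ := hR
        have := h k n
        rw [dbl_of_R hj, ih j hj.1, sub_zero] at this
        simpa using this
      · have := h k n
        rw [dbl_of_not (fun j hj => hR ⟨j, hj⟩)] at this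
        simpa using this
  have hcoord : ∀ d k l, M ≤ k + d → a (k, l) = 0 := by
    intro d
    induction d with
    | zero =>
      intro k l hk
      by_cases hR : ∃ k', R x k k'
      · obtain ⟨k', hk'⟩ := hR
        have := hM k' (by have := hk'.1; omega)
        rw [hk'.2.2.1] at this
        exact absurd this (by simp)
      · have := hrow k l
        rw [row_of_not (fun j hj => hR ⟨j, hj⟩)] at this
        simpa using this
    | succ d ih =>
      intro k l hk
      by_cases hR : ∃ k', R x k k'
      · obtain ⟨k', hk'⟩ := hR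
        have := hrow k l
        rw [row_of_R hk', ih k' l (by have := hk'.1; omega), sub_zero] at this
        simpa using this
      · have := hrow k l
        rw [row_of_not (fun j hj => hR ⟨j, hj⟩)] at this
        simpa using this
  ext i
  obtain ⟨k, l⟩ := i
  exact hcoord M k l (by omega)

theorem simple_of_finite {x : ℕ → Bool} {M : ℕ} (hM : ∀ n, M ≤ n → x n = false) :
    QuotientIsSimple (K x) := by
  intro b hb
  have ha : Phi x b ≠ 0 := fun h => hb ((mem_K x b).2 h)
  obtain ⟨k, n, hkn⟩ : ∃ k n, dbl x k n (Phi x b) ≠ 0 := by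
    by_contra hcon
    push Not at hcon
    exact ha (eq_zero_of_dbl hM hcon)
  let W : Submodule ℂ P := (idealGen b ⊔ (K x).toSubmodule).topologicalClosure
  have hW : ∀ p : P, p ∈ W := by
    have hKW : (K x).toSubmodule ≤ W := le_sup_right.trans (Submodule.le_topologicalClosure _)
    have hunit : ∀ i : II, sec (δ i) ∈ W := by
      rintro ⟨m, l⟩
      set u : P := sec (δ (m, k)) with hu
      set v : P := sec (δ (n, l)) with hv
      have hz : u * b * v ∈ idealGen b := by
        unfold idealGen
        rw [Submodule.mem_sInf]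
        rintro I ⟨hbI, hI⟩
        exact (hI v _ ((hI u b hbI).1)).2
      have hk : sec (δ (m, l)) - (dbl x k n (Phi x b))⁻¹ • (u * b * v) ∈ (K x).toSubmodule := by
        rw [mem_K, map_sub, map_smul, Phi_sec, Phi_mul, Phi_mul, hu, hv, Phi_sec, Phi_sec, mu_mu,
          smul_smul, inv_mul_cancel₀ hkn, one_smul, sub_self]
      have h1 : (dbl x k n (Phi x b))⁻¹ • (u * b * v) ∈ W :=
        Submodule.le_topologicalClosure _ (Submodule.mem_sup_left (Submodule.smul_mem _ _ hz))
      have h2 := W.add_mem (hKW hk) h1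
      rwa [sub_add_cancel] at h2
    intro p
    have h1 : p - sec (Phi x p) ∈ W := hKW (by
      rw [mem_K, map_sub, Phi_sec, sub_self])
    have h2 : sec (Phi x p) ∈ W := by
      have h3 := (hasSum_δ (Phi x p)).mapL sec
      refine (Submodule.isClosed_topologicalClosure _).mem_of_tendsto h3
        (Eventually.of_forall fun s => ?_)
      refine Submodule.sum_mem W fun i _ => ?_
      rw [map_smul]
      exact W.smul_mem _ (hunit i)
    have h3 := W.add_mem h1 h2
    rwa [sub_add_cancel] at h3
  intro p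
  have := hW p
  exact this

/-! ### Infinitely many ones: not simple -/

theorem exists_null {x : ℕ → Bool} (hx : {n | x n = true}.Infinite) :
    ∃ c : L1 II, c ≠ 0 ∧ ∀ a, mu x a c = 0 := by
  classical
  set ν : ℕ → ℕ := Nat.nth (fun n => x n = true) with hν
  have hν1 : ∀ j, x (ν j) = true := fun j => Nat.nth_mem_of_infinite hx j
  have hνm : StrictMono ν := Nat.nth_strictMono hx
  have hR : ∀ j, R x (ν j) (ν (j + 1)) := by
    intro j
    refine ⟨hνm (Nat.lt_succ_self j), hν1 _, hν1 _, fun i h1 h2 => ?_⟩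
    by_contra hcon
    have hxi : x i = true := by simpa using hcon
    obtain ⟨m, hm⟩ : ∃ m, ν m = i := ⟨Nat.count (fun n => x n = true) i, Nat.nth_count hxi⟩
    rw [← hm] at h1 h2
    have h3 := hνm.lt_iff_lt.1 h1
    have h4 := hνm.lt_iff_lt.1 h2
    omega
  have hsurj : ∀ k, x k = true → ∃ j, ν j = k := fun k hk =>
    ⟨Nat.count (fun n => x n = true) k, Nat.nth_count hk⟩
  have hsum : Summable fun j : ℕ => ((1 / 2 : ℂ) ^ j) • (δ (ν j, 0) : L1 II) := by
    refine Summable.of_norm_bounded
      (summable_geometric_of_lt_one (r := (1 / 2 : ℝ)) (by norm_num) (by norm_num)) fun j => ?_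
    rw [norm_smul, norm_δ, mul_one, norm_pow]
    norm_num
  set c : L1 II := ∑' j : ℕ, ((1 / 2 : ℂ) ^ j) • (δ (ν j, 0) : L1 II) with hc
  have hcoord : ∀ i, c i = ∑' j : ℕ, (1 / 2 : ℂ) ^ j * (if ((ν j, 0) : II) = i then 1 else 0) := by
    intro i
    have h1 := hsum.hasSum.mapL (ev i)
    have h2 : c i = ev i c := rfl
    rw [h2, hc, ← h1.tsum_eq]
    refine tsum_congr fun j => ?_
    rw [map_smul, ev_δ, smul_eq_mul]
  have hc1 : ∀ j, c (ν j, 0) = (1 / 2 : ℂ) ^ j := by
    intro j
    rw [hcoord, tsum_eq_single j]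
    · simp
    · intro j' hj'
      rw [if_neg, mul_zero]
      intro h
      exact hj' (hνm.injective (congrArg Prod.fst h))
  have hc2 : ∀ k, x k = false → c (k, 0) = 0 := by
    intro k hk
    rw [hcoord]
    have : ∀ j : ℕ, (1 / 2 : ℂ) ^ j * (if ((ν j, 0) : II) = (k, 0) then 1 else 0) = 0 := by
      intro j
      rw [if_neg, mul_zero]
      intro h
      have h1 := hν1 j
      rw [show ν j = k from congrArg Prod.fst h, hk] at h1
      exact absurd h1 (by simp)
    simp only [this, tsum_zero]
  have hc3 : ∀ k l, l ≠ 0 → c (k, l) = 0 := by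
    intro k l hl
    rw [hcoord]
    have : ∀ j : ℕ, (1 / 2 : ℂ) ^ j * (if ((ν j, 0) : II) = (k, l) then 1 else 0) = 0 := by
      intro j
      rw [if_neg, mul_zero]
      intro h
      exact hl (congrArg Prod.snd h).symm
    simp only [this, tsum_zero]
  have hrow : ∀ k l, row x k l c = 0 := by
    intro k l
    by_cases hl : l = 0
    · subst hl
      by_cases hk : x k = true
      · obtain ⟨j, rfl⟩ := hsurj k hk
        rw [row_of_R (hR j), hc1, hc1, pow_succ]
        ring
      · have hk' : x k = false := by simpa using hk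
        rw [row_of_not (fun k' hk'' => hk hk''.2.1), hc2 k hk', mul_zero]
    · by_cases hR' : ∃ k', R x k k'
      · obtain ⟨k', hk'⟩ := hR'
        rw [row_of_R hk', hc3 _ _ hl, hc3 _ _ hl]
        ring
      · rw [row_of_not (fun k' hk' => hR' ⟨k', hk'⟩), hc3 _ _ hl, mul_zero]
  refine ⟨c, ?_, ?_⟩
  · intro h0
    have := hc1 0
    rw [h0] at this
    simp at this
  · intro a
    refine congrArg (fun F => F a) (clm_ext (F := (mu x).flip c) (G := 0) fun i => ?_)
    obtain ⟨m, k⟩ := i
    show mu x (δ (m, k)) c = 0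
    ext i'
    obtain ⟨m', l⟩ := i'
    rw [ev_mu, hrow]
    simp

theorem not_simple_of_infinite {x : ℕ → Bool} (hx : {n | x n = true}.Infinite) :
    ¬ QuotientIsSimple (K x) := by
  obtain ⟨c, hc, hmu⟩ := exists_null hx
  intro hs
  let V : Submodule ℂ P :=
    { carrier := {p | ∀ q, Phi x (q * p) = 0}
      add_mem' := fun {a b} ha hb q => by rw [mul_add, map_add, ha q, hb q, add_zero]
      zero_mem' := fun q => by rw [mul_zero, map_zero]
      smul_mem' := fun r a ha q => by rw [mul_smul_comm, map_smul, ha q, smul_zero] }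
  have hVclosed : IsClosed (V : Set P) := by
    have : (V : Set P) = ⋂ q, (fun p => Phi x (q * p)) ⁻¹' {0} := by
      ext p
      simp only [mem_iInter, mem_preimage, mem_singleton_iff]
      exact Iff.rfl
    rw [this]
    exact isClosed_iInter fun q =>
      isClosed_singleton.preimage ((Phi x).continuous.comp (continuous_const.mul continuous_id))
  have hb : sec c ∉ (K x).toSubmodule := by
    rw [mem_K, Phi_sec]
    exact hc
  have hdense := hs (sec c) hb
  have hle : idealGen (sec c) ⊔ (K x).toSubmodule ≤ V := by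
    refine sup_le ?_ ?_
    · refine sInf_le ⟨fun q => ?_, fun a z hz => ⟨fun q => ?_, fun q => ?_⟩⟩
      · rw [Phi_mul, Phi_sec, hmu]
      · rw [← mul_assoc]
        exact hz (q * a)
      · rw [← mul_assoc, Phi_mul, hz q, map_zero]
        rfl
    · intro k hk q
      rw [Phi_mul, (mem_K x k).1 hk, map_zero]
  have hVuniv : (V : Set P) = univ := by
    have h1 : Dense (V : Set P) := hdense.mono hle
    rw [← hVclosed.closure_eq]
    exact h1.closure_eq
  have h2 : (sec (δ (0, 0)) : P) ∈ V := by
    have : (sec (δ (0, 0)) : P) ∈ (V : Set P) := by rw [hVuniv]; exact mem_univ _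
    exact this
  have h3 := h2 (sec (δ (0, 0)))
  rw [Phi_mul, Phi_sec, mu_δ, t_self] at h3
  have h4 := congrArg (fun f : L1 II => f (0, 0)) h3
  simp only [lp.coeFn_smul, Pi.smul_apply, smul_eq_mul] at h4
  rw [δ_self] at h4
  norm_num at h4

theorem K_ne_top (x : ℕ → Bool) : (K x).toSubmodule ≠ ⊤ := by
  intro h
  have h1 : (sec (δ (0, 0)) : P) ∈ (K x).toSubmodule := by rw [h]; trivial
  rw [mem_K, Phi_sec] at h1
  have := congrArg (fun f : L1 II => f (0, 0)) h1
  simp only [δ_self] at this
  exact one_ne_zero this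

/-! ### The eventually zero sequences -/

/-- The set of the `x ∈ 2^ω` with finitely many ones. -/
def Q : Set (ℕ → Bool) := {x | {n | x n = true}.Finite}

theorem Q_countable : Q.Countable := by
  classical
  have h1 : Set.Countable {s : Set ℕ | s.Finite} := by
    have := Set.countable_ofPred_finite_subset (s := (univ : Set ℕ)) (countable_univ)
    simpa using this
  have h2 : MapsTo (fun x : ℕ → Bool => {n | x n = true}) Q {s : Set ℕ | s.Finite} := fun x hx => hx
  refine h2.countable_of_injOn (fun x _ y _ h => ?_) h1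
  funext n
  have h3 : x n = true ↔ y n = true := by
    have : n ∈ {n | x n = true} ↔ n ∈ {n | y n = true} := by
      rw [show {n | x n = true} = {n | y n = true} from h]
    exact this
  exact Bool.eq_iff_iff.2 h3

theorem not_isGδ_Q : ¬ IsGδ Q := by
  intro h
  have hd : ∀ v : Bool, Dense {x : ℕ → Bool | ∃ M, ∀ n, M ≤ n → x n = v} := by
    intro v x
    refine mem_closure_of_tendsto (f := fun (M : ℕ) (n : ℕ) => if n < M then x n else v)
      (b := atTop) ?_ (Eventually.of_forall fun M => ⟨M, fun n hn => by simp [not_lt.2 hn]⟩)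
    rw [tendsto_pi_nhds]
    intro n
    refine tendsto_const_nhds.congr' ?_
    filter_upwards [eventually_gt_atTop n] with M hM
    simp [hM]
  have h1 : Dense Q := (hd false).mono fun x hx => by
    obtain ⟨M, hM⟩ := hx
    refine (Set.finite_lt_nat M).subset fun n hn => ?_
    by_contra hcon
    have := hM n (not_lt.1 hcon)
    rw [show x n = true from hn] at this
    exact absurd this (by simp)
  have h2 : Dense Qᶜ := (hd true).mono fun x hx => by
    obtain ⟨M, hM⟩ := hx
    intro hfin
    have : (Set.Ici M).Finite := hfin.subset fun n hn => hM n hn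
    exact (Set.Ici_infinite M) this
  have h3 : Dense (Q ∩ Qᶜ) := h1.inter_of_Gδ h Q_countable.isGδ_compl h2
  rw [inter_compl_self] at h3
  obtain ⟨y, hy⟩ := h3.nonempty
  exact hy

theorem simple_iff (x : ℕ → Bool) : K x ∈ SimpleSet P ↔ x ∈ Q := by
  constructor
  · intro h
    by_contra hx
    exact not_simple_of_infinite hx h
  · intro hx
    obtain ⟨M, hM⟩ := hx.bddAbove
    refine simple_of_finite (M := M + 1) fun n hn => ?_
    by_contra hcon
    have hn' : x n = true := by simpa using hcon
    have := hM hn'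
    omega

theorem exists_sum_aux (p : L1 S) : ∃ c : S → ℂ, (Summable fun w => ‖c w‖) ∧
    HasSum (fun w => c w • (δ w : L1 S)) p :=
  ⟨fun w => p w, summable_norm p, hasSum_δ p⟩

theorem isEllOne_P : IsEllOne P word where
  mul := word_mul
  norm := fun c hc => by
    have hmem : Memℓp (fun w : S => c w) 1 := by
      refine memℓp_gen ?_
      simpa using hc
    let f : L1 S := ⟨fun w => c w, hmem⟩
    have h1 : HasSum (fun w => c w • (δ w : L1 S)) f := hasSum_δ f
    have h2 : (∑' w, c w • (δ w : L1 S)) = f := h1.tsum_eq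
    have h3 : ‖∑' w, c w • (δ w : L1 S)‖ = ∑' w, ‖c w‖ := by
      rw [h2, norm_eq]
    exact h3
  exists_sum := exists_sum_aux

/-- There is a Banach algebra `P`, namely `P = ℓ₁(S)` with `S` the free semigroup on countably many
generators, which is a separable quotient generator for Banach algebras and for which the set
`Simple(P)` of the closed ideals with simple quotient is not `G_δ` in `Ideal(P)` with the Wijsman
topology, whether or not the ideal `P` is included. -/
theorem result : ∃ (P : Type) (_ : NonUnitalNormedRing P) (_ : NormedSpace ℂ P)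
    (_ : IsScalarTower ℂ P P) (_ : SMulCommClass ℂ P P) (_ : CompleteSpace P) (word : S → P),
    IsEllOne P word ∧ IsQuotientGenerator P ∧
    ¬ IsGδ (SimpleSet P) ∧ ¬ IsGδ {K ∈ SimpleSet P | K.toSubmodule ≠ ⊤} := by
  refine ⟨P, inferInstance, inferInstance, inferInstance, inferInstance, inferInstance, word,
    isEllOne_P, isQuotientGenerator_P, fun h => ?_, fun h => ?_⟩
  · refine not_isGδ_Q ?_
    have : Q = K ⁻¹' SimpleSet P := by
      ext x
      exact (simple_iff x).symm
    rw [this]
    exact h.preimage continuous_K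
  · refine not_isGδ_Q ?_
    have : Q = K ⁻¹' {K ∈ SimpleSet P | K.toSubmodule ≠ ⊤} := by
      ext x
      constructor
      · exact fun hx => ⟨(simple_iff x).2 hx, K_ne_top x⟩
      · exact fun hx => (simple_iff x).1 hx.1
    rw [this]
    exact h.preimage continuous_K

end Pool.Agent.Results.MP_2e14e4_lc.SimpleNotGdelta
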